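import Pool.Agent.Work.MP_086a47_lc.Bd.B04
import Pool.Agent.Work.MP_086a47_lc.Bd.B05

/-!
# Freeze-Tag, part A from the seventeen certificates
-/

namespace FreezeTag

theorem block_of_head {L C g rd ra rb : ℕ} {g0 : List Goal}
    (h : headT L C g rd rb g0 = true) (h0 : rad rd 0 = ra) (hs : StackOK L g rd g0) :
    BlockA ((ra : ℝ) / 100000) ((rb : ℝ) / 100000) := by
  have h1 := headT_sound h hs
  rwa [h0] at h1

theorem partA_of_flat (hκ : FlatK (5 / 4)) : PartA (89 / 100) := by
  have b00000 : BlockA (((0 : ℕ) : ℝ) / 100000) (((10000 : ℕ) : ℝ) / 100000) :=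
    block_of_head (L := 10) (C := 20) (g := 18) (rd := 0x186a015f9013880111700ea600c35009c400753004e200271000000) (g0 := stk00000_0)
      (by decide +kernel) (by decide +kernel)
      (segT_sound hκ seg00000_0 (stackOK_nil _ _ _))
  have b10000 : BlockA (((10000 : ℕ) : ℝ) / 100000) (((20000 : ℕ) : ℝ) / 100000) :=
    block_of_head (L := 9) (C := 18) (g := 20) (rd := 0x186a015f9013880111700ea600c35009c400753004e2002710) (g0 := stk10000_0)
      (by decide +kernel) (by decide +kernel)
      (segT_sound hκ seg10000_0 (stackOK_nil _ _ _))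
  have b20000 : BlockA (((20000 : ℕ) : ℝ) / 100000) (((30000 : ℕ) : ℝ) / 100000) :=
    block_of_head (L := 8) (C := 18) (g := 20) (rd := 0x186a015f9013880111700ea600c35009c400753004e20) (g0 := stk20000_0)
      (by decide +kernel) (by decide +kernel)
      (segT_sound hκ seg20000_0 (stackOK_nil _ _ _))
  have b30000 : BlockA (((30000 : ℕ) : ℝ) / 100000) (((38750 : ℕ) : ℝ) / 100000) :=
    block_of_head (L := 8) (C := 24) (g := 15) (rd := 0x186a01647214244120160fde80dbba0b98c0975e07530) (g0 := stk30000_0)
      (by decide +kernel) (by decide +kernel)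
      (segT_sound hκ seg30000_0 (stackOK_nil _ _ _))
  have b38750 : BlockA (((38750 : ℕ) : ℝ) / 100000) (((43854 : ℕ) : ℝ) / 100000) :=
    block_of_head (L := 12) (C := 24) (g := 15) (rd := 0x186a0172b015ec014ad0136df122ef10eff0fb0f0e71f0d32e0bf3e0ab4e0975e) (g0 := stk38750_0)
      (by decide +kernel) (by decide +kernel)
      (segT_sound hκ seg38750_0 (stackOK_nil _ _ _))
  have b43854 : BlockA (((43854 : ℕ) : ℝ) / 100000) (((48533 : ℕ) : ℝ) / 100000) :=
    block_of_head (L := 12) (C := 36) (g := 10) (rd := 0x186a0174591621214fcc13d8512b3e118f7106b00f4690e2220cfdc0bd950ab4e) (g0 := stk43854_0)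
      (by decide +kernel) (by decide +kernel)
      (segT_sound hκ seg43854_0 (stackOK_nil _ _ _))
  have b48533 : BlockA (((48533 : ℕ) : ℝ) / 100000) (((53212 : ℕ) : ℝ) / 100000) :=
    block_of_head (L := 11) (C := 60) (g := 6) (rd := 0x186a0174591621214fcc13d8512b3e118f7106b00f4690e2230cfdc0bd95) (g0 := stk48533_0)
      (by decide +kernel) (by decide +kernel)
      (segT_sound hκ seg48533_0 (segT_sound hκ seg48533_1 (stackOK_nil _ _ _)))
  have b53212 : BlockA (((53212 : ℕ) : ℝ) / 100000) (((57891 : ℕ) : ℝ) / 100000) :=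
    block_of_head (L := 10) (C := 60) (g := 6) (rd := 0x186a0174591621214fcc13d8512b3e118f7106b00f46a0e2230cfdc) (g0 := stk53212_0)
      (by decide +kernel) (by decide +kernel)
      (segT_sound hκ seg53212_0 (stackOK_nil _ _ _))
  have b57891 : BlockA (((57891 : ℕ) : ℝ) / 100000) (((63907 : ℕ) : ℝ) / 100000) :=
    block_of_head (L := 7) (C := 45) (g := 8) (rd := 0x186a016f20157a114021128a2111220f9a30e223) (g0 := stk57891_0)
      (by decide +kernel) (by decide +kernel)
      (segT_sound hκ seg57891_0 (stackOK_nil _ _ _))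
  have b63907 : BlockA (((63907 : ℕ) : ℝ) / 100000) (((71126 : ℕ) : ℝ) / 100000) :=
    block_of_head (L := 5) (C := 60) (g := 6) (rd := 0x186a016a6d14e3b13208115d60f9a3) (g0 := stk63907_0)
      (by decide +kernel) (by decide +kernel)
      (segT_sound hκ seg63907_0 (stackOK_nil _ _ _))
  have b71126 : BlockA (((71126 : ℕ) : ℝ) / 100000) (((76901 : ℕ) : ℝ) / 100000) :=
    block_of_head (L := 5) (C := 72) (g := 5) (rd := 0x186a01701115982142f412c65115d6) (g0 := stk71126_0)
      (by decide +kernel) (by decide +kernel)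
      (segT_sound hκ seg71126_0 (stackOK_nil _ _ _))
  have b76901 : BlockA (((76901 : ℕ) : ℝ) / 100000) (((80751 : ℕ) : ℝ) / 100000) :=
    block_of_head (L := 6) (C := 72) (g := 5) (rd := 0x186a0177961688c1598314a7913b6f12c65) (g0 := stk76901_0)
      (by decide +kernel) (by decide +kernel)
      (segT_sound hκ seg76901_0 (stackOK_nil _ _ _))
  have b80751 : BlockA (((80751 : ℕ) : ℝ) / 100000) (((83959 : ℕ) : ℝ) / 100000) :=
    block_of_head (L := 6) (C := 120) (g := 3) (rd := 0x186a017a1816d90161071547f147f713b6f) (g0 := stk80751_0)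
      (by decide +kernel) (by decide +kernel)
      (segT_sound hκ seg80751_0 (stackOK_nil _ _ _))
  have b83959 : BlockA (((83959 : ℕ) : ℝ) / 100000) (((85964 : ℕ) : ℝ) / 100000) :=
    block_of_head (L := 8) (C := 180) (g := 2) (rd := 0x186a017ecb176f616f211674b15f76157a114fcc147f7) (g0 := stk83959_0)
      (by decide +kernel) (by decide +kernel)
      (segT_sound hκ seg83959_0 (segT_sound hκ seg83959_1 (segT_sound hκ seg83959_2 (stackOK_nil _ _ _))))
  have b85964 : BlockA (((85964 : ℕ) : ℝ) / 100000) (((87718 : ℕ) : ℝ) / 100000) :=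
    block_of_head (L := 8) (C := 180) (g := 2) (rd := 0x186a017fc6178eb1721016b361645c15d81156a614fcc) (g0 := stk85964_0)
      (by decide +kernel) (by decide +kernel)
      (segT_sound hκ seg85964_0 (segT_sound hκ seg85964_1 (segT_sound hκ seg85964_2 (stackOK_nil _ _ _))))
  have b87718 : BlockA (((87718 : ℕ) : ℝ) / 100000) (((88946 : ℕ) : ℝ) / 100000) :=
    block_of_head (L := 10) (C := 180) (g := 2) (rd := 0x186a0181d417d081783b1736f16ea3169d71650b1603e15b72156a6) (g0 := stk87718_0)
      (by decide +kernel) (by decide +kernel)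
      (segT_sound hκ seg87718_0 (segT_sound hκ seg87718_1 (segT_sound hκ seg87718_2 (segT_sound hκ seg87718_3 (segT_sound hκ seg87718_4 (stackOK_nil _ _ _))))))
  have b88946 : BlockA (((88946 : ℕ) : ℝ) / 100000) (((89867 : ℕ) : ℝ) / 100000) :=
    block_of_head (L := 12) (C := 180) (g := 2) (rd := 0x186a01830717f6e17bd41783b174a21710916d70169d71663e162a415f0b15b72) (g0 := stk88946_0)
      (by decide +kernel) (by decide +kernel)
      (segT_sound hκ seg88946_0 (segT_sound hκ seg88946_1 (segT_sound hκ seg88946_2 (segT_sound hκ seg88946_3 (segT_sound hκ seg88946_4 (segT_sound hκ seg88946_5 (segT_sound hκ seg88946_6 (stackOK_nil _ _ _))))))))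
  have h := (((((((((((((((b00000.trans b10000).trans b20000).trans b30000).trans b38750).trans b43854).trans b48533).trans b53212).trans b57891).trans b63907).trans b71126).trans b76901).trans b80751).trans b83959).trans b85964).trans b87718).trans b88946
  refine PartA_of_block (b := ((89867 : ℕ) : ℝ) / 100000) ?_ (by norm_num)
  have e : (((0 : ℕ) : ℝ) / 100000) = 0 := by norm_num
  rw [e] at h
  exact h

theorem main_of_flat (hκ : FlatK (5 / 4)) (hB : PartB (89 / 100)) : Main :=
  main_of_parts (by norm_num) (partA_of_flat hκ) hB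

end FreezeTag
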