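import Mathlib

/-!
# Freeze-Tag in the Euclidean plane: definitions of the statement

A wake-up tree has a root (the awake robot at the origin) with exactly one child; every other node
(a sleeping robot) has at most two children.  `WTree I` is the subtree hanging at the unique child
of the root: a nonempty rooted tree, nodes labelled by the robots, every node with at most two
children (the order of the children is irrelevant).  It is spanning when every robot is the label
of exactly one node.
-/

namespace FreezeTag

/-- Nonempty rooted trees with nodes labelled in `I`, each node with at most two children. -/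
inductive WTree (I : Type) : Type
  | leaf : I → WTree I
  | one : I → WTree I → WTree I
  | two : I → WTree I → WTree I → WTree I

/-- The list of all labels. -/
def WTree.labels {I : Type} : WTree I → List I
  | .leaf i => [i]
  | .one i t => i :: t.labels
  | .two i t s => i :: (t.labels ++ s.labels)

/-- Every robot is the label of exactly one node. -/
def WTree.Spanning {I : Type} (t : WTree I) : Prop := t.labels.Nodup ∧ ∀ i, i ∈ t.labels

/-- Length of the longest path from `p` through the root of `t` down to a leaf of `t`, the nodes
being at the positions `x`. -/
noncomputable def makespan {I : Type} {X : Type} [MetricSpace X] (x : I → X) : X → WTree I → ℝ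
  | p, .leaf i => dist p (x i)
  | p, .one i t => dist p (x i) + makespan x (x i) t
  | p, .two i t s => dist p (x i) + max (makespan x (x i) t) (makespan x (x i) s)

/-- The Euclidean plane. -/
abbrev Plane := EuclideanSpace ℝ (Fin 2)

/-- Optimal makespan over all wake-up trees, awake robot at the origin. -/
noncomputable def opt {n : ℕ} (x : Fin n → Plane) : ℝ :=
  sInf {m : ℝ | ∃ t : WTree (Fin n), t.Spanning ∧ makespan x 0 t = m}

/-- `γ_n`: supremum of `opt` over all configurations of `n` points of the closed unit disk. -/
noncomputable def gammaN (n : ℕ) : ℝ :=
  sSup {m : ℝ | ∃ x : Fin n → Plane, (∀ i, ‖x i‖ ≤ 1) ∧ opt x = m}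

/-- The wake-up ratio `γ = sup_{n ≥ 1} γ_n`. -/
noncomputable def gamma : ℝ := sSup {m : ℝ | ∃ n : ℕ, 1 ≤ n ∧ gammaN n = m}

end FreezeTag
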