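import Pool.Agent.Work.MP_086a47_lc.Bd.B03
import Pool.Agent.Work.MP_086a47_lc.Bd.B01

/-!
# Freeze-Tag, flat leaf lemma with `κ = 5/4`

Two robots standing together on the left side of an `a × b` rectangle wake up every finite set of
robots of the rectangle within time `a + (5/4) b`.
-/

namespace FreezeTag

namespace FK

variable {I : Type*} [DecidableEq I]

theorem tight54 {n : ℕ} (hF : Flat I (5 / 4) n) : Tight I (5 / 4) (n + 1) := by
  intro x T hT a t ht0 ht1 hbox hr ht hb
  have e1 : laneF.h = 400 := rfl
  have e2 : laneF.k = 500 := rfl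
  have e3 : laneF.hK = 500 := rfl
  have e4 : laneF.kK = 625 := rfl
  have e5 : laneF.A0 = 8000 := rfl
  have e6 : laneF.l = 20 := rfl
  have e7 : laneF.m = 30 := rfl
  have f1 : laneB1.h = 160 := rfl
  have f2 : laneB1.k = 600 := rfl
  have f3 : laneB1.hK = 200 := rfl
  have f4 : laneB1.kK = 750 := rfl
  have f6 : laneB1.l = 16 := rfl
  have f7 : laneB1.m = 12 := rfl
  have g1 : laneB2.h = 640 := rfl
  have g2 : laneB2.k = 600 := rfl
  have g3 : laneB2.hK = 800 := rfl
  have g4 : laneB2.kK = 750 := rfl
  rcases le_total a (1 / 5) with ha | ha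
  · exact small_case hF (by norm_num) (by linarith) hT hbox ht0 (by linarith)
  rcases le_total a (4 / 5) with ha' | ha'
  · rcases le_total t (1 / 8) with h | h
    · refine two_case laneB1 laneB2 (U := 9600) hF (by norm_num) rfl rfl rfl rfl rfl (by decide)
        (by decide) (by decide) (by decide) (by norm_num) (by rw [f2, f6]; norm_num)
        (by rw [g2, f6]; norm_num) (by rw [f1, f3]; norm_num) (by rw [f2, f4]; norm_num)
        (by rw [g1, g3]; norm_num) (by rw [g2, g4]; norm_num) tabB1 tabB2 repB1 repB2
        (T1 := 13920) (T2 := 19680) (by rw [f1, f7]; norm_num) (by rw [g1, f7]; norm_num)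
        (by rw [f1, f7]; norm_num; linarith) (by rw [g1, f7]; norm_num; linarith)
        (j0 := 0) (j1 := 2) (by decide) (by decide) chkB01 chkB02 hT hbox
        (by rw [f6]; norm_num; linarith) (by rw [f6]; norm_num; linarith) hr (fun _ => ht)
        (fun h => absurd h (by simp))
    · refine two_case laneB1 laneB2 (U := 9600) hF (by norm_num) rfl rfl rfl rfl rfl (by decide)
        (by decide) (by decide) (by decide) (by norm_num) (by rw [f2, f6]; norm_num)
        (by rw [g2, f6]; norm_num) (by rw [f1, f3]; norm_num) (by rw [f2, f4]; norm_num)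
        (by rw [g1, g3]; norm_num) (by rw [g2, g4]; norm_num) tabB1 tabB2 repB1 repB2
        (T1 := 13920) (T2 := 19680) (by rw [f1, f7]; norm_num) (by rw [g1, f7]; norm_num)
        (by rw [f1, f7]; norm_num; linarith) (by rw [g1, f7]; norm_num; linarith)
        (j0 := 2) (j1 := 8) (by decide) (by decide) chkB11 chkB12 hT hbox
        (by rw [f6]; norm_num; linarith) (by rw [f6]; norm_num; linarith) hr (fun _ => ht)
        (fun _ => hb (by linarith))
  · rcases le_total t (1 / 5) with h | h
    · refine far_case laneF (U := 10000) hF (by norm_num) rfl (by decide) (by decide) (by decide)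
        (by norm_num) (by rw [e2, e6]; norm_num) (by rw [e1, e3]; norm_num)
        (by rw [e2, e4]; norm_num) tabF repF (T0 := 20500) (by rw [e5]; norm_num)
        (by rw [e5]; norm_num; linarith) (j0 := 0) (j1 := 4) (by decide) (by decide) chkF0 hT
        hbox (by rw [e6]; norm_num; linarith) (by rw [e6]; norm_num; linarith) (fun _ => ht)
        (fun h => absurd h (by simp))
    · refine far_case laneF (U := 10000) hF (by norm_num) rfl (by decide) (by decide) (by decide)
        (by norm_num) (by rw [e2, e6]; norm_num) (by rw [e1, e3]; norm_num)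
        (by rw [e2, e4]; norm_num) tabF repF (T0 := 20500) (by rw [e5]; norm_num)
        (by rw [e5]; norm_num; linarith) (j0 := 4) (j1 := 10) (by decide) (by decide) chkF1 hT
        hbox (by rw [e6]; norm_num; linarith) (by rw [e6]; norm_num; linarith) (fun _ => ht)
        (fun _ => hb (by linarith))

theorem flat54 (I : Type*) [DecidableEq I] (n : ℕ) : Flat I (5 / 4) n :=
  flat_all (by norm_num) (fun _ hF => tight54 hF) n

/-- **The flat lemma with constant `5/4`.** -/
theorem flatK54 : FlatK (5 / 4) := flatK_of fun I _ n => flat54 I n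

end FK

end FreezeTag
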