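import Pool.Agent.Work.MP_086a47_lc.Bd.B01

set_option linter.unusedSectionVars false

namespace FreezeTag

variable {I : Type} {X : Type} [MetricSpace X]

/-- Label of the root. -/
def WTree.root : WTree I → I
  | .leaf i => i
  | .one i _ => i
  | .two i _ _ => i

theorem WTree.root_mem (t : WTree I) : t.root ∈ t.labels := by
  cases t <;> simp [WTree.root, WTree.labels]

theorem WTree.labels_pos (t : WTree I) : 1 ≤ t.labels.length := by
  cases t <;> simp [WTree.labels]

theorem dist_root_le (x : I → X) (t : WTree I) (p : X) : dist p (x t.root) ≤ makespan x p t := by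
  cases t with
  | leaf i => simp [WTree.root, makespan]
  | one i t => have := makespan_nonneg x t (x i); simp [WTree.root, makespan]; exact this
  | two i t s =>
    have := makespan_nonneg x t (x i)
    simp [WTree.root, makespan, this]

/-- A tree with at least two nodes at mutual distances `≥ δ`. -/
theorem two_nodes (x : I → X) (δ : ℝ) (hδ : ∀ i j, i ≠ j → δ ≤ dist (x i) (x j))
    (t : WTree I) (hn : t.labels.Nodup) (h2 : 2 ≤ t.labels.length) (p : X) :
    dist p (x t.root) + δ ≤ makespan x p t := by
  cases t with
  | leaf i => simp [WTree.labels] at h2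
  | one i t =>
    simp only [WTree.labels, List.nodup_cons] at hn
    have h1 := dist_root_le x t (x i)
    have h3 := hδ i t.root (fun h => hn.1 (h ▸ t.root_mem))
    simp only [WTree.root, makespan]; linarith
  | two i t s =>
    simp only [WTree.labels, List.nodup_cons, List.mem_append, not_or] at hn
    have h1 := dist_root_le x t (x i)
    have h3 := hδ i t.root (fun h => hn.1.1 (h ▸ t.root_mem))
    have h4 := le_max_left (makespan x (x i) t) (makespan x (x i) s)
    simp only [WTree.root, makespan]; linarith

/-- A tree with at least four nodes at mutual distances `≥ δ`. -/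
theorem four_nodes (x : I → X) (δ : ℝ) (hδ : ∀ i j, i ≠ j → δ ≤ dist (x i) (x j))
    (t : WTree I) (hn : t.labels.Nodup) (h4 : 4 ≤ t.labels.length) (p : X) :
    dist p (x t.root) + 2 * δ ≤ makespan x p t := by
  cases t with
  | leaf i => simp [WTree.labels] at h4
  | one i t =>
    simp only [WTree.labels, List.nodup_cons, List.length_cons] at hn h4
    have h1 := two_nodes x δ hδ t hn.2 (by omega) (x i)
    have h3 := hδ i t.root (fun h => hn.1 (h ▸ t.root_mem))
    simp only [WTree.root, makespan]; linarith
  | two i t s =>
    simp only [WTree.labels, List.nodup_cons, List.mem_append, not_or, List.nodup_append,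
      List.length_cons, List.length_append] at hn h4
    have h5 := le_max_left (makespan x (x i) t) (makespan x (x i) s)
    have h6 := le_max_right (makespan x (x i) t) (makespan x (x i) s)
    have h3 := hδ i t.root (fun h => hn.1.1 (h ▸ t.root_mem))
    have h3' := hδ i s.root (fun h => hn.1.2 (h ▸ s.root_mem))
    simp only [WTree.root, makespan]
    rcases Nat.lt_or_ge 1 t.labels.length with h | h
    · have h1 := two_nodes x δ hδ t hn.2.1 h (x i)
      linarith
    · have h1 := two_nodes x δ hδ s hn.2.2.1 (by omega) (x i)
      linarith

/-- The square. -/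
noncomputable def square : Fin 4 → Plane :=
  ![!₂[1, 0], !₂[0, 1], !₂[-1, 0], !₂[0, -1]]

theorem square_norm (i : Fin 4) : ‖square i‖ = 1 := by
  fin_cases i <;> simp [square, EuclideanSpace.norm_eq, Fin.sum_univ_two]

theorem square_dist (i j : Fin 4) (h : i ≠ j) : Real.sqrt 2 ≤ dist (square i) (square j) := by
  rw [EuclideanSpace.dist_eq]
  apply Real.sqrt_le_sqrt
  fin_cases i <;> fin_cases j <;>
    first
      | exact absurd rfl h
      | (simp only [square, Fin.sum_univ_two]; norm_num [Real.dist_eq])

theorem square_lower (t : WTree (Fin 4)) (ht : t.Spanning) :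
    1 + 2 * Real.sqrt 2 ≤ makespan square 0 t := by
  have hlen : 4 ≤ t.labels.length := by
    have h1 : (Finset.univ : Finset (Fin 4)) ⊆ t.labels.toFinset := by
      intro i _; simpa using ht.2 i
    have h2 := Finset.card_le_card h1
    have h3 := List.toFinset_card_le t.labels
    simp at h2
    omega
  have h := four_nodes square (Real.sqrt 2) square_dist t ht.1 hlen 0
  rw [dist_zero_left, square_norm] at h
  exact h

end FreezeTag
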