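import Mathlib
import Pool.Agent.Work.MP_086a47_lc.Bd.B03
import Pool.Agent.Work.MP_086a47_lc.Bd.B02

namespace FreezeTag

theorem partB : PartB (89 / 100) := fun _ _ x S h => partB_main x S h

end FreezeTag
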